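import Pool.Agent.Helper776.Complete

set_option autoImplicit false

/-!
Additive cubes are avoidable over every three-element set of integers.
-/

namespace Pool.Agent.Results.MP_bf1c32_co.AllThreeLetterAlphabets

open Pool.Agent.Helper776

/-- For every set A of exactly three integers there is an infinite word over A in which no three
consecutive blocks of equal positive length have equal sums. -/
theorem result :
    ∀ A : Finset ℤ, A.card = 3 →
      ∃ w : ℕ → ℤ, (∀ n, w n ∈ A) ∧
        ∀ p L : ℕ, 0 < L →
          ¬ ((∑ k ∈ Finset.range L, w (p + k)) = (∑ k ∈ Finset.range L, w (p + L + k)) ∧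
             (∑ k ∈ Finset.range L, w (p + L + k)) = (∑ k ∈ Finset.range L, w (p + 2 * L + k))) := by
  intro A hA
  exact Complete.set_full A (by omega)

end Pool.Agent.Results.MP_bf1c32_co.AllThreeLetterAlphabets
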