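import Pool.Agent.Helper776.Assemble

set_option autoImplicit false

/-!
Additive cubes are avoidable over every three-element set of integers which is not an
arithmetic progression.
-/

namespace Pool.Agent.Results.MP_bf1c32_co.ThreeLettersNonAP

open Pool.Agent.Helper776

/-- For every set A of exactly three integers which is not of the form {a, a + d, a + 2d} there is
an infinite word over A in which no three consecutive blocks of equal positive length have equal
sums. -/
theorem result :
    ∀ A : Finset ℤ, A.card = 3 → (¬ ∃ a d : ℤ, A = {a, a + d, a + 2 * d}) →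
      ∃ w : ℕ → ℤ, (∀ n, w n ∈ A) ∧
        ∀ p L : ℕ, 0 < L →
          ¬ ((∑ k ∈ Finset.range L, w (p + k)) = (∑ k ∈ Finset.range L, w (p + L + k)) ∧
             (∑ k ∈ Finset.range L, w (p + L + k)) = (∑ k ∈ Finset.range L, w (p + 2 * L + k))) := by
  intro A hA hne
  obtain ⟨a, ha, b, hb, c, hc, hab, hbc, -⟩ := Assemble.exists_three A (by omega)
  refine Assemble.set_of_triple A a b c ha hb hc hab hbc ?_
  intro h
  apply hne
  refine ⟨a, b - a, ?_⟩
  have hsub : ({a, b, c} : Finset ℤ) ⊆ A := by
    intro x hx
    simp only [Finset.mem_insert, Finset.mem_singleton] at hx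
    rcases hx with rfl | rfl | rfl <;> assumption
  have hcard : ({a, b, c} : Finset ℤ).card = 3 := by
    rw [Finset.card_eq_three]
    exact ⟨a, b, c, by omega, by omega, by omega, rfl⟩
  rw [← Finset.eq_of_subset_of_card_le hsub (by omega)]
  have e1 : a + (b - a) = b := by ring
  have e2 : a + 2 * (b - a) = c := by linarith
  rw [e1, e2]

end Pool.Agent.Results.MP_bf1c32_co.ThreeLettersNonAP
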